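import Pool.Agent.Lib.helper21.Weih

set_option autoImplicit false

/-! The totalizing jump and meets. -/

namespace Pool.Agent.H.MP_1d3aa8_lc

open Filter Pool.Agent.Lib.helper21.PR Pool.Agent.Lib.helper21.Wh Encodable

attribute [local irreducible] Primrec Computable

/-- totalization -/
def Tot (g : Pb) : Pb := fun p => {q | (g p).Nonempty → q ∈ g p}

def pj (e : ℕ) (t : ℕ → ℕ) (i : ℕ) : ℕ := t (2 * i + e)

/-- meet -/
def Mt (f g : Pb) : Pb := fun t => {u | (f (pj 0 t)).Nonempty ∧ (g (pj 1 t)).Nonempty ∧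
  (u 0 = 0 ∧ tl u ∈ f (pj 0 t) ∨ u 0 = 1 ∧ tl u ∈ g (pj 1 t))}

def Eqv (f g : Pb) : Prop := Le f g ∧ Le g f

/-- `F` has the largest degree among totalizations of problems equivalent to `f` -/
def IsTJ (f F : Pb) : Prop := (∃ g, Eqv g f ∧ Eqv F (Tot g)) ∧ ∀ g, Eqv g f → Le (Tot g) F

def In (r x : ℕ → ℕ) : Prop := ∀ i v, (∃ s, r (2 * s + 0) = i.pair v + 1) ↔ x i = v
def lst (r : ℕ → ℕ) : Ax := fun z => ∃ s, r (2 * s + 1) = encode z + 1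
def ext (f : Pb) : Pb := fun r => {v | ∃ x, In r x ∧ (∀ z ∈ f x, ∃ v', Maps (lst r) z v') ∧
  ∃ z ∈ f x, Maps (lst r) z v}

variable {Γ Δ : Gr → Gr} {G : Gr} {B : List ℕ × ℕ × ℕ → Prop} {p w v : ℕ → ℕ} {f g h : Pb}

theorem tot_ne (g : Pb) (p : ℕ → ℕ) : (Tot g p).Nonempty :=
  (em (g p).Nonempty).elim (fun ⟨q, a⟩ => ⟨q, fun _ => a⟩) fun a => ⟨p, fun b => absurd b a⟩

theorem maps (h : Op Γ) : ∃ B, REPred B ∧ ∀ p v, Is (Γ (gr p)) v → Maps B p v :=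
  ⟨_, (r_pw h.1).re, fun p _ a n v => (h.ex p n v).trans (a n v)⟩

theorem kmaps (h : Is G p) (k : Maps B (jn p w) v) :
    Maps (fun z => Ap B (Jn G (fin z.1)) z.2.1 z.2.2) w v := fun n a => by
  have : Ct fun H => Ap B (Jn G H) n a := c_ex fun _ => c_and (c_ball fun _ =>
    c_or c_const (c_and c_const c_atom)) c_const
  exact Iff.trans ⟨fun ⟨k, b⟩ => (this w).1 k b, fun b => ((this w).2 b).exists⟩
    ((h.jn (is_gr w)).ap k n a)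

theorem op_k (hB : REPred B) : Op fun G _ c => ∃ z : List ℕ × ℕ × ℕ, encode z = c ∧
    Ap B (Jn G (fin z.1)) z.2.1 z.2.2 := by
  have := RE.un hB
  exact ⟨RE.un (RE.re (by unfold Ap Jn fin; fun_prop)), fun _ _ => c_ex fun _ => c_and c_const
    (c_ex fun _ => c_and (c_ball fun _ => c_or (c_and c_const c_atom) c_const) c_const)⟩

theorem op_in (h : Op Γ) : Op fun G _ c => Γ G c.unpair.1 c.unpair.2 :=
  ⟨r_comp (f := fun z : List ℕ × ℕ × ℕ => (z.1, z.2.2.unpair.1, z.2.2.unpair.2)) h.1 (by fun_prop),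
    fun _ _ => h.2 _ _⟩

theorem op_case (j : ℕ) (h : Op Γ) (k : Op Δ) : Op fun G i c => i = j ∧ Γ G i c ∨ i ≠ j ∧ Δ G i c :=
  ⟨RE.un (RE.re (r_or (r_and (by fun_prop) (r_pw h.1)) (r_and (by fun_prop) (r_pw k.1)))),
    fun _ _ => c_or (c_and c_const (h.2 _ _)) (c_and c_const (k.2 _ _))⟩

theorem build {e e' : ℕ} (he : e < 2) (he' : e' < 2) (ne : e ≠ e') {B' : Ax} (h : Op Γ) (h' : Op Δ)
    (hB : REPred B) (hB' : REPred B') (k : ℕ) : ∃ W, REPred W ∧ ∀ x, ∃ t, Maps W x t ∧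
      (∀ i < k, t i = 0) ∧ (∀ y, Is (Γ (gr (jn x t))) y → In (pj e t) y) ∧
      (∀ y, Is (Δ (gr (jn x t))) y → In (pj e' t) y) ∧
      (∀ w v, Maps B (jn (jn x t) w) v → Maps (lst (pj e t)) w v) ∧
      ∀ w v, Maps B' (jn (jn x t) w) v → Maps (lst (pj e' t)) w v := by
  obtain ⟨W, h1, h2⟩ := fix (op_case e (op_in h) (op_case e' (op_in h')
    (op_case (2 + e) (op_k hB) (op_k hB')))) k
  refine ⟨W, h1, fun x => (h2 x).imp fun t ⟨a, b, c⟩ => ?_⟩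
  have e0 : ∀ s j, 2 * (2 * s) + j = 4 * s + j := fun _ _ => by omega
  have e1 : ∀ s j, 2 * (2 * s + 1) + j = 4 * s + (2 + j) := fun _ _ => by omega
  refine ⟨a, b, fun y d i v => ?_, fun y d i v => ?_, fun w v d n u => ?_, fun w v d n u => ?_⟩
  · simpa [pj, e0, c e (by omega)] using d i v
  · simpa [pj, e0, c e' (by omega), ne.symm] using d i v
  · simpa [lst, pj, e1, c (2 + e) (by omega), show 2 + e ≠ e' by omega] using kmaps (is_gr _) d n u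
  · simpa [lst, pj, e1, c (2 + e') (by omega), show 2 + e' ≠ e by omega, ne.symm]
      using kmaps (is_gr _) d n u

theorem mk_ext (H : Le g f) : ∃ W, REPred W ∧ ∀ p, ∃ r, Maps W p r ∧
    ((g p).Nonempty → (ext f r).Nonempty ∧ ext f r ⊆ g p) := by
  obtain ⟨A, B, a1, a2, a3⟩ := H
  obtain ⟨C, b1, b2⟩ := maps ((((op_id.pj 0).pj 0).jn (op_id.pj 1)).ap a2)
  obtain ⟨W, b3, b4⟩ := build two_pos one_lt_two zero_ne_one ((op_id.pj 0).ap a1) op_id b1 b1 0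
  obtain ⟨D, b5, b6⟩ := maps ((op_id.ap b3).pj 0)
  refine ⟨D, b5, fun p => ?_⟩
  obtain ⟨t, c1, -, c2, -, c3, -⟩ := b4 p
  refine ⟨pj 0 t, b6 _ _ (((is_gr p).ap c1).pj 0), fun hp => ?_⟩
  obtain ⟨x, d1, ⟨z, d2⟩, d3⟩ := a3 p hp
  have d4 := c2 x ((is_l p t).ap d1)
  have d5 : ∀ q ∈ f x, ∃ y ∈ g p, Maps (lst (pj 0 t)) q y := fun q k => (d3 q k).imp fun y k =>
    ⟨k.1, c3 _ _ (b2 _ _ (((jn_even p t ▸ (is_l (jn p t) q).pj 0 :).jn (is_r _ q)).ap k.2))⟩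
  refine ⟨(d5 z d2).imp fun y k => ⟨x, d4, fun q k => (d5 q k).imp fun _ k => k.2, z, d2, k.2⟩,
    fun v ⟨x', e1, _, q, e2, e3⟩ => ?_⟩
  obtain rfl : x = x' := funext fun i => (d4 i _).1 ((e1 i _).2 rfl)
  obtain ⟨y, e4, e5⟩ := d5 q e2
  exact e5.uniq e3 ▸ e4

theorem ext_eqv (f : Pb) : Eqv (ext f) f := by
  obtain ⟨W, a, b⟩ := mk_ext (Le.refl f)
  refine ⟨.mk (Γ := fun G i v => ∃ s, G (2 * s + 0) (i.pair v + 1))
    (Δ := fun G n a => ∃ σ : List ℕ, (∀ i < σ.length, G (2 * i + 1) (σ.getD i 0)) ∧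
      ∃ s, G (2 * (2 * s + 1) + 0) (encode (σ, n, a) + 1))
    ⟨RE.un (RE.re (by unfold fin; fun_prop)), fun _ _ => c_ex fun _ => c_atom⟩
    ⟨RE.un (RE.re (by unfold fin; fun_prop)), fun _ _ => c_ex fun _ => c_and (c_ball fun _ => c_atom)
      (c_ex fun _ => c_atom)⟩ fun r ⟨v, x, c1, c2, z, c3, _⟩ => ⟨x, c1, ⟨z, c3⟩, fun q k => ?_⟩,
    .mk (op_id.ap a) (op_id.pj 1) fun p k => (b p).imp fun r c =>
      ⟨(is_gr p).ap c.1, (c.2 k).1, fun q d => ⟨q, (c.2 k).2 d, is_r p q⟩⟩⟩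
  obtain ⟨y, d⟩ := c2 q k
  refine ⟨y, ⟨x, c1, c2, q, k, d⟩, fun n a => Iff.trans ?_ ((is_r r q).ap d n a)⟩
  exact exists_congr fun σ => and_congr_right fun _ => exists_congr fun s => is_l r q _ _

theorem tot_le (k : Le g f) : Le (Tot g) (Tot (ext f)) :=
  let ⟨_, a, b⟩ := mk_ext k
  .mk (op_id.ap a) (op_id.pj 1) fun p _ => (b p).imp fun _ c => ⟨(is_gr p).ap c.1, tot_ne _ _,
    fun q d => ⟨q, fun e => (c.2 e).2 (d (c.2 e).1), is_r p q⟩⟩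

theorem isTJ (f : Pb) : IsTJ f (Tot (ext f)) :=
  ⟨⟨_, ext_eqv f, .refl _, .refl _⟩, fun _ k => tot_le k.1⟩

theorem mt_l (f g : Pb) : Le (Mt f g) f :=
  .mk (op_id.pj 0) ((op_id.pj 1).cons (op_const 0)) fun t ⟨_, a, b, _⟩ => ⟨_, (is_gr t).pj 0, a,
    fun q k => ⟨cons 0 q, ⟨a, b, .inl ⟨rfl, k⟩⟩, (is_r t q).cons fun _ => Iff.rfl⟩⟩

theorem mt_r (f g : Pb) : Le (Mt f g) g :=
  .mk (op_id.pj 1) ((op_id.pj 1).cons (op_const 1)) fun t ⟨_, a, b, _⟩ => ⟨_, (is_gr t).pj 1, b,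
    fun q k => ⟨cons 1 q, ⟨a, b, .inr ⟨rfl, k⟩⟩, (is_r t q).cons fun _ => Iff.rfl⟩⟩

theorem le_mt (a : Le h f) (b : Le h g) : Le h (Mt f g) := by
  obtain ⟨A, B, a1, a2, a3⟩ := a
  obtain ⟨C, D, b1, b2, b3⟩ := b
  have o1 := ((op_id.pj 0).jn (op_id.pj 1).tl).ap a2
  have o2 := ((op_id.pj 0).jn (op_id.pj 1).tl).ap b2
  refine .mk ((op_id.ap a1).jn (op_id.ap b1)) (Δ := fun G n v =>
    G 1 0 ∧ Ap B (Jn (Pj 0 G) (Tl (Pj 1 G))) n v ∨ G 1 1 ∧ Ap D (Jn (Pj 0 G) (Tl (Pj 1 G))) n v)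
    ⟨RE.un (RE.re (r_or (r_and (by unfold fin; fun_prop) (r_pw o1.1))
      (r_and (by unfold fin; fun_prop) (r_pw o2.1)))),
      fun _ _ => c_or (c_and c_atom (o1.2 _ _)) (c_and c_atom (o2.2 _ _))⟩ fun p hp => ?_
  obtain ⟨x, c1, ⟨z, c2⟩, c3⟩ := a3 p hp
  obtain ⟨y, d1, d2, d3⟩ := b3 p hp
  have e0 : pj 0 (jn x y) = x := jn_even x y
  have e1 : pj 1 (jn x y) = y := jn_odd x y
  simp only [Mt]
  refine ⟨jn x y, ((is_gr p).ap c1).jn ((is_gr p).ap d1), ?_⟩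
  rw [e0, e1]
  refine ⟨⟨cons 0 z, ⟨z, c2⟩, d2, .inl ⟨rfl, c2⟩⟩, fun u ⟨_, _, k⟩ => ?_⟩
  rcases k with ⟨k, k'⟩ | ⟨k, k'⟩
  · exact (c3 _ k').imp fun _ j => ⟨j.1, fun n v => Iff.trans (by simp [gr, jn, k])
      (((is_l p u).jn (is_r p u).tl).ap j.2 n v)⟩
  · exact (d3 _ k').imp fun _ j => ⟨j.1, fun n v => Iff.trans (by simp [gr, jn, k])
      (((is_l p u).jn (is_r p u).tl).ap j.2 n v)⟩

theorem unif (h : Op Γ) : ∃ B, REPred B ∧ ∀ p, (∃ v, Γ (gr p) 0 v) →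
    ∃ a, Γ (gr p) 0 a ∧ ∀ v, (∃ k, B (pr p k, 0, v)) ↔ a = v := by
  classical
  obtain ⟨N, h1, h2, -, h4⟩ := re_bool (r_pw h.1).re
  let M : List ℕ → ℕ → Bool := fun σ u =>
    N (σ.take u.unpair.2.unpair.1, 0, u.unpair.1) u.unpair.2.unpair.2
  have hM : Primrec fun z : List ℕ × ℕ => M z.1 z.2 := by unfold M; fun_prop
  have e : ∀ p k u, u ≤ k → M (pr p k) u = M (pr p u) u := fun p k u hu => by
    have := (Nat.unpair_left_le _).trans (Nat.unpair_right_le u)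
    simp [M, pr, ← List.map_take, List.take_range, this, this.trans hu]
  refine ⟨fun z => M z.1 z.1.length ∧ (∀ u < z.1.length, ¬ M z.1 u) ∧ z.1.length.unpair.1 = z.2.2,
    RE.re (by clear_value M; fun_prop), fun p ⟨v, a⟩ => ?_⟩
  obtain ⟨k, a⟩ := (h.ex p 0 v).2 a
  obtain ⟨t, a⟩ := h4 (_, 0, v) a
  have b : ∃ u, M (pr p u) u := ⟨v.pair (k.pair t), by
    simpa [M, pr, ← List.map_take, List.take_range,
      (Nat.left_le_pair k t).trans (Nat.right_le_pair v _)] using a⟩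
  refine ⟨(Nat.find b).unpair.1, (h.ex p _ _).1 ⟨(Nat.find b).unpair.2.unpair.1, ?_⟩, fun v =>
    ⟨fun ⟨k, c1, c2, c3⟩ => ?_, fun c => ⟨Nat.find b, by simpa using Nat.find_spec b, fun u hu => ?_,
      by simpa using c⟩⟩⟩
  · simpa [pr, ← List.map_take, List.take_range, (Nat.unpair_left_le _).trans
      (Nat.unpair_right_le _)] using h2 _ _ (Nat.find_spec b)
  · simp only [pr_len] at c1 c2 c3
    rwa [(Nat.find_eq_iff b).2 ⟨c1, fun u hu => e p k u hu.le ▸ c2 u hu⟩]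
  · rw [pr_len] at hu
    exact (e p _ u hu.le).symm ▸ Nat.find_min b hu

theorem loc {t t' q q' : ℕ → ℕ} {k : ℕ} (a : ∀ i < k, t i = t' i) (b : ∀ i < k, q i = q' i) :
    pr (jn t q) k = pr (jn t' q') k := pr_congr fun i hi => by
  rw [jn, jn, a _ (by omega), b _ (by omega)]

theorem core {e e' : ℕ} (he : e < 2) (he' : e' < 2) (ne : e ≠ e') {Φ Ψ : List ℕ × ℕ × ℕ → Prop} (hΦ : REPred Φ)
    (hΨ : REPred Ψ) (hg : Le h g) (H : ∀ t, ∃ z, Maps Φ t z ∧ ∀ q ∈ Tot h z, ∃ u, Maps Ψ (jn t q) u ∧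
      (u 0 = e ∧ tl u ∈ Tot (ext f) (pj e t) ∨ u 0 = e' ∧ tl u ∈ Tot (ext g) (pj e' t)))
    {k : ℕ} {q0 : ℕ → ℕ} (h0 : Ψ (pr (jn (fun _ => 0) q0) k, 0, e)) : Le f g := by
  obtain ⟨A, B, a1, a2, a3⟩ := hg
  have hΨ' := RE.un hΨ
  obtain ⟨E, b1, b2⟩ := unif (Γ := fun G _ a => ∃ τ : List ℕ, Ap Ψ (Jn G (gr (τ.getD · 0))) 0 e ∧
    Ap Ψ (Jn G (gr (τ.getD · 0))) 1 a) ⟨RE.un (RE.re (by unfold Ap Jn fin gr; fun_prop)),
      fun _ _ => c_ex fun _ => c_and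
        (c_ex fun _ => c_and (c_ball fun _ => c_or (c_and c_const c_atom) c_const) c_const)
        (c_ex fun _ => c_and (c_ball fun _ => c_or (c_and c_const c_atom) c_const) c_const)⟩
  have o1 := (op_id.pj 0).pj 1
  have o2 := o1.ap b1
  have o3 := (o1.jn (((o1.ap hΦ).jn (op_id.pj 1)).ap a2)).ap hΨ
  obtain ⟨C, b3, b4⟩ := maps ((op_id.pj 1).cons (Δ := fun G _ v => ∃ a, v = a + 1 ∧
    Ap E (Pj 1 (Pj 0 G)) 0 a) ⟨RE.un (RE.re (r_exists (r_and (by fun_prop) (r_pw (r_comp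
      (f := fun z : (List ℕ × ℕ × ℕ) × ℕ => (z.1.1, 0, z.2)) o2.1 (by fun_prop)))))),
      fun _ _ => c_ex fun _ => c_and c_const (o2.2 _ _)⟩)
  generalize hΓ : (fun G => Ap Ψ (Jn (Pj 1 (Pj 0 G)) (Ap B (Jn (Ap Φ (Pj 1 (Pj 0 G))) (Pj 1 G))))) =
    Γ at o3
  have o4 := o3.1
  obtain ⟨D, b5, b6⟩ := maps (o3.tl.tl.cons (Δ := fun G _ v => Γ G 0 e ∧ v = 0 ∨
    Γ G 0 e' ∧ ∃ a, Γ G 1 a ∧ v = a + 1) ⟨RE.un (RE.re (r_or (r_and (r_pw (r_comp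
      (f := fun z : List ℕ × ℕ × ℕ => (z.1, 0, e)) o4 (by fun_prop))) (by fun_prop)) (r_and
      (r_pw (r_comp (f := fun z : List ℕ × ℕ × ℕ => (z.1, 0, e')) o4 (by fun_prop))) (r_exists (r_and
      (r_pw (r_comp (f := fun z : (List ℕ × ℕ × ℕ) × ℕ => (z.1.1, 1, z.2)) o4 (by fun_prop)))
        (by fun_prop)))))), fun _ _ => c_or (c_and (o3.2 _ _) c_const) (c_and (o3.2 _ _)
          (c_ex fun _ => c_and (o3.2 _ _) c_const))⟩)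
  obtain ⟨W, b7, b8⟩ := build he he' ne (op_id.pj 0) (((op_id.pj 1).ap hΦ).ap a1) b3 b5 k
  refine .mk (((op_id.ap b7).ap hΦ).ap a1) ((((op_id.pj 0).jn ((op_id.pj 0).ap b7)).jn
    (op_id.pj 1)).ap b5).tl fun x ⟨x0, hx⟩ => ?_
  obtain ⟨t, c1, c2, c3, c4, c5, c6⟩ := b8 x
  obtain ⟨z, c7, c8⟩ := H t
  have d0 : ∀ w, Is (Pj 1 (Pj 0 (gr (jn (jn x t) w)))) t := fun w =>
    (jn_odd x t ▸ (is_l (jn x t) w).pj 1 :)
  have d1 : ∀ q u, Maps Ψ (jn t q) u → u 0 = e → ∃ a, (∃ τ : List ℕ,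
      Ap Ψ (Jn (gr t) (gr (τ.getD · 0))) 0 e ∧ Ap Ψ (Jn (gr t) (gr (τ.getD · 0))) 1 a) ∧
      ∀ v ∈ Tot (ext f) (pj e t), v 0 = a + 1 ∧ tl v ∈ f x := fun q u a b => by
    obtain ⟨k0, a0⟩ := (a 0 e).2 b
    obtain ⟨k1, a1⟩ := (a 1 _).2 rfl
    obtain ⟨a, d2, d3⟩ := b2 t ⟨u 1, pr q (k0 + k1), ((is_gr _).jn (is_gr _)).ap_iff.2 ⟨k0, by
      rwa [loc (fun _ _ => rfl) fun i hi => pr_getD (by omega)]⟩, ((is_gr _).jn (is_gr _)).ap_iff.2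
        ⟨k1, by rwa [loc (fun _ _ => rfl) fun i hi => pr_getD (by omega)]⟩⟩
    have d4 : ∀ w, Maps (lst (pj e t)) w (cons (a + 1) w) := fun w => c5 _ _ (b4 _ _
      ((is_r _ w).cons fun v => by simp [(d0 w).ap_iff, d3, eq_comm]))
    have d5 := c3 x (is_l x t)
    refine ⟨a, d2, fun v hv => ?_⟩
    obtain ⟨x', e1, -, w, e2, e3⟩ := hv ⟨_, x, d5, fun w _ => ⟨_, d4 w⟩, x0, hx, d4 x0⟩
    obtain rfl : x = x' := funext fun i => (d5 i _).1 ((e1 i _).2 rfl)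
    exact (d4 w).uniq e3 ▸ ⟨rfl, e2⟩
  have d2 : (h z).Nonempty := by_contra fun n => by
    obtain ⟨u, a, -⟩ := c8 q0 fun k => absurd k n
    obtain ⟨a, ⟨τ, e1, e2⟩, e3⟩ := d1 q0 u a ((a 0 e).1 ⟨k, loc c2 (fun _ _ => rfl) ▸ h0⟩)
    obtain ⟨u, e4, e5⟩ := c8 (τ.getD · 0) fun k => absurd k n
    have e6 := ((is_gr _).jn (is_gr _)).ap e4
    have e7 := (e3 _ (e5.resolve_right fun k => ne (((e6 _ _).1 e1).symm.trans k.1)).2).1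
    have e8 : tl u 0 = a := (e6 _ _).1 e2
    omega
  obtain ⟨y, d3, d4, d5⟩ := a3 z d2
  have d6 : ∀ w ∈ g y, ∃ u, (u 0 = e ∧ tl (tl u) ∈ f x ∨ u 0 = e' ∧ tl u ∈ Tot (ext g) (pj e' t)) ∧
      Maps D (jn (jn x t) w) (cons (if u 0 = e then 0 else u 1 + 1) (tl (tl u))) := fun w hw => by
    obtain ⟨q, e1, e2⟩ := d5 w hw
    obtain ⟨u, e3, e4⟩ := c8 q fun _ => e1
    have e5 : Is (Γ (gr (jn (jn x t) w))) u :=
      hΓ ▸ ((d0 w).jn ((((d0 w).ap c7).jn (is_r _ w)).ap e2)).ap e3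
    refine ⟨u, e4.imp_left fun k => ⟨k.1, (d1 q u e3 k.1).elim fun _ a => (a.2 _ k.2).2⟩,
      b6 _ _ (e5.tl.tl.cons fun v => ?_)⟩
    rcases e4 with ⟨a, -⟩ | ⟨a, -⟩ <;> simp [e5 _ _, a, ne, ne.symm, eq_comm]
  choose! u d6 d7 using d6
  have d8 := c4 y (((is_r x t).ap c7).ap d3)
  have d9 : ∀ n, ∀ w ∈ g y, (if u w 0 = e then 0 else u w 1 + 1) = n → tl (tl (u w)) ∈ f x :=
    fun n => by
      induction n using Nat.strong_induction_on with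
      | _ n ih =>
        intro w hw a
        refine (d6 w hw).elim (·.2) fun ⟨b, c⟩ => ?_
        obtain ⟨y', e1, -, w', e2, e3⟩ := c ⟨_, y, d8, fun w k => ⟨_, c6 _ _ (d7 w k)⟩, w, hw,
          c6 _ _ (d7 w hw)⟩
        obtain rfl : y = y' := funext fun i => (d8 i _).1 ((e1 i _).2 rfl)
        have e4 := e3.uniq (c6 _ _ (d7 w' e2))
        rw [if_neg (b ▸ ne.symm)] at a
        exact e4 ▸ ih _ (a ▸ Nat.lt_succ_of_le (congrFun e4 0).ge) w' e2 rfl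
  exact ⟨y, (((is_gr x).ap c1).ap c7).ap d3, d4, fun w hw => ⟨_, d9 _ w hw rfl,
    ((((is_l x w).jn ((is_l x w).ap c1)).jn (is_r x w)).ap (d7 w hw)).tl⟩⟩

end Pool.Agent.H.MP_1d3aa8_lc
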